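import Pool.Agent.H38.O1.N3

set_option autoImplicit false

/-!
An automorphic loop of odd order has no element of order two.
-/

namespace ALoop

open Equiv

variable {Q : Type*} {G : Subgroup (Perm Q)} {L : Q → Perm Q} {J : Perm Q} {e : Q}

namespace AL0

theorem D2 (h : AL0 G L J e) (p : Q) : D L J p * D L J p = 1 := by
  unfold D
  calc L p * J * (L p)⁻¹ * (L p * J * (L p)⁻¹) = L p * (J * J) * (L p)⁻¹ := by group
    _ = 1 := by rw [h.JJ1]; group

theorem D_self (h : AL0 G L J e) (p : Q) : D L J p p = p := by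
  have h1 : (L p)⁻¹ p = e := by rw [Perm.inv_eq_iff_eq, h.Le]
  unfold D
  rw [Perm.mul_apply, Perm.mul_apply, h1, h.Je, h.Le]

theorem D_memH (h : AL0 G L J e) (p : Q) : D L J p ∈ h.H := by
  unfold D
  exact h.H.mul_mem (h.H.mul_mem (h.le_H (h.memL p)) h.J_mem) (h.H.inv_mem (h.le_H (h.memL p)))

theorem D_com (h : AL0 G L J e) {g : Perm Q} (hg : g ∈ h.H) {p : Q} (hp : g p = p) :
    g * D L J p = D L J p * g := by
  have h1 := h.D_conj hg p
  rw [hp, mul_inv_eq_iff_eq_mul] at h1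
  exact h1

theorem D_symm (h : AL0 G L J e) {a c : Q} (hac : D L J a c = c) : D L J c a = a := by
  obtain ⟨d, hd⟩ : ∃ d, d = (L a)⁻¹ c := ⟨_, rfl⟩
  have hc : L a d = c := by rw [hd, apply_inv']
  have h1 : J d = d := by
    have h2 : L a (J d) = L a d := by
      rw [hc, hd]
      have h3 := hac
      unfold D at h3
      rw [Perm.mul_apply, Perm.mul_apply] at h3
      exact h3
    exact (L a).injective h2
  have h2 : D L J d e = e := by
    unfold D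
    rw [Perm.mul_apply, Perm.mul_apply, h.L_inv_e, h1, h1]
    have := h.LJ d
    rwa [h1] at this
  have h3 := h.D_conj (h.le_H (h.memL a)) d
  rw [hc] at h3
  rw [← h3, Perm.mul_apply, Perm.mul_apply]
  have h4 : (L a)⁻¹ a = e := by rw [Perm.inv_eq_iff_eq, h.Le]
  rw [h4, h2, h.Le]

/-- `T_a = D_a J` if `J a = a` -/
theorem Tx_DJ (h : AL0 G L J e) {a : Q} (ha : J a = a) : Tx L J a = D L J a * J := by
  unfold Tx Rt D
  rw [ha, mul_inv_rev, mul_inv_rev, h.Jinv]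
  group

/-- a 2-subgroup which contains `D_a` and fixes `a` and `b` -/
def Fam (h : AL0 G L J e) (R : Subgroup (Perm Q)) (a b : Q) : Prop :=
  R ≤ h.H ∧ IsPGroup 2 R ∧ a ≠ b ∧ D L J a ∈ R ∧ ∀ r ∈ R, r a = a ∧ r b = b

theorem Fam_max (h : AL0 G L J e) [Finite Q] {R : Subgroup (Perm Q)}
    (hmax : ∀ R' a' b', h.Fam R' a' b' → Nat.card R' ≤ Nat.card R)
    {V : Subgroup (Perm Q)} (hRV : R ≤ V) {a b : Q} (hV : h.Fam V a b) : V ≤ R := by
  have h1 := Subgroup.eq_of_le_of_card_ge hRV (hmax V a b hV)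
  exact h1.ge

/-- fixed points of a subgroup generated by `R` and `w` -/
theorem sup_fix {R : Subgroup (Perm Q)} {w : Perm Q} {q : Q} (hR : ∀ r ∈ R, r q = q)
    (hw : w q = q) : ∀ v ∈ R ⊔ Subgroup.zpowers w, v q = q := by
  have h1 : R ⊔ Subgroup.zpowers w ≤ MulAction.stabilizer (Perm Q) q := by
    apply sup_le
    · intro r hr
      exact hR r hr
    · rw [Subgroup.zpowers_le]
      exact hw
  intro v hv
  exact h1 hv

theorem sup_two {R : Subgroup (Perm Q)} {w : Perm Q} (hR : IsPGroup 2 R) {k : ℕ}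
    (hw : w ^ (2 ^ k) = 1) (h1 : ∀ r ∈ R, w * r * w⁻¹ ∈ R) (h2 : ∀ r ∈ R, w⁻¹ * r * w ∈ R) :
    IsPGroup 2 (R ⊔ Subgroup.zpowers w : Subgroup (Perm Q)) := by
  have h3 : IsPGroup 2 (Subgroup.zpowers w) := by
    rintro ⟨x, n, rfl⟩
    refine ⟨k, ?_⟩
    apply Subtype.ext
    change (w ^ n) ^ (2 ^ k) = 1
    rw [← zpow_natCast, ← zpow_mul, mul_comm, zpow_mul, zpow_natCast, hw, one_zpow]
  rw [sup_comm]
  apply h3.to_sup_of_normal_right' hR
  rw [Subgroup.zpowers_le, Subgroup.mem_normalizer_iff]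
  intro r
  refine ⟨h1 r, fun hr => ?_⟩
  have h4 := h2 _ hr
  have h5 : w⁻¹ * (w * r * w⁻¹) * w = r := by group
  rwa [h5] at h4

theorem Fam_D (h : AL0 G L J e) [Finite Q] {R : Subgroup (Perm Q)}
    (hmax : ∀ R' a' b', h.Fam R' a' b' → Nat.card R' ≤ Nat.card R) {a b : Q}
    (hR : h.Fam R a b) {c : Q} (hac : a ≠ c) (hc : ∀ r ∈ R, r c = c) : D L J c ∈ R := by
  obtain ⟨h1, h2, h3, h4, h5⟩ := hR
  have hcom : ∀ r ∈ R, r * D L J c = D L J c * r := fun r hr => h.D_com (h1 hr) (hc r hr)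
  have hD2 := h.D2 c
  have hDi : (D L J c)⁻¹ = D L J c := inv_eq_of_mul_eq_one_left hD2
  have hca : D L J c a = a := h.D_symm (hc _ h4)
  have h6 : h.Fam (R ⊔ Subgroup.zpowers (D L J c)) a c := by
    refine ⟨sup_le h1 ?_, sup_two h2 (k := 1) ?_ ?_ ?_, hac, (le_sup_left : R ≤ _) h4,
      fun v hv => ⟨?_, ?_⟩⟩
    · rw [Subgroup.zpowers_le]; exact h.D_memH c
    · rw [pow_one, pow_two, hD2]
    · intro r hr
      rw [← hcom r hr]
      have : r * D L J c * (D L J c)⁻¹ = r := by group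
      rw [this]; exact hr
    · intro r hr
      rw [mul_assoc, hcom r hr]
      have : (D L J c)⁻¹ * (D L J c * r) = r := by group
      rw [this]; exact hr
    · exact sup_fix (fun r hr => (h5 r hr).1) hca v hv
    · exact sup_fix hc (h.D_self c) v hv
  have h7 := h.Fam_max hmax le_sup_left h6
  exact h7 ((le_sup_right : Subgroup.zpowers (D L J c) ≤ _) (Subgroup.mem_zpowers _))

/-- the final contradiction -/
theorem fin_odd (h : AL0 G L J e) [Finite Q] {R V : Subgroup (Perm Q)}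
    (hmax : ∀ R' a' b', h.Fam R' a' b' → Nat.card R' ≤ Nat.card R) {a b : Q}
    (hR : h.Fam R a b) (hRe : ∀ r ∈ R, r e = e) {u : Perm Q} (hu : u ∈ G) (hue : u e = e)
    (hua : u a = b) (hub : u b = a) (hRV : R ≤ V) (huV : u ∈ V) (hV2 : IsPGroup 2 V)
    (hVH : V ≤ h.H) (hVf : ∀ q, (∀ r ∈ R, r q = q) → u q = q → ∀ v ∈ V, v q = q) : False := by
  have hab := hR.2.2.1
  have hae : a ≠ e := by
    rintro rfl
    apply hab
    rw [← hua, hue]
  have hfa : ∀ r ∈ R, r a = a := fun r hr => (hR.2.2.2.2 r hr).1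
  have hfb : ∀ r ∈ R, r b = b := fun r hr => (hR.2.2.2.2 r hr).2
  have hDa : D L J a ∈ R := hR.2.2.2.1
  have hJ : J ∈ R := by
    have := h.Fam_D hmax hR hae hRe
    rwa [h.D_e] at this
  have hJa := hfa J hJ
  have hJb := hfb J hJ
  have hTb : Tx L J a b = b := by
    rw [h.Tx_DJ hJa, Perm.mul_apply, hJb]
    exact hfb _ hDa
  have hcomm : L a b = L b a := by
    have h1 : Tx L J a (L b a) = L a b := by
      have h2 : (Rt L J a)⁻¹ (L b a) = b := by rw [Perm.inv_eq_iff_eq, h.Rt_app]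
      unfold Tx
      rw [Perm.mul_apply, h2]
    rw [← h1, h.aut (h.Tx_mem a) (h.Tx_e a), hTb, h.Tx_x]
  obtain ⟨q, hq⟩ : ∃ q, q = L a b := ⟨_, rfl⟩
  have hJq : J q = q := by rw [hq, h.aaip, hJa, hJb, hcomm]
  have hGq : ∀ r ∈ R, r ∈ G → r q = q := by
    intro r hr hrG
    rw [hq, h.aut hrG (hRe r hr), hfa r hr, hfb r hr]
  have hRq : ∀ r ∈ R, r q = q := by
    intro r hr
    rcases hR.1 hr with h1 | h1
    · exact hGq r hr h1
    · have h2 := hGq (r * J) (R.mul_mem hr hJ) h1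
      rwa [Perm.mul_apply, hJq] at h2
  have huq : u q = q := by rw [hq, h.aut hu hue, hua, hub, hcomm]
  by_cases hqe : e = q
  · apply hab
    have h1 : L a b = L a (J a) := by rw [h.LJ, ← hq, hqe]
    have h2 := (L a).injective h1
    rw [h2, hJa]
  · have h1 : h.Fam V e q := by
      refine ⟨hVH, hV2, hqe, ?_, fun v hv => ⟨?_, ?_⟩⟩
      · rw [h.D_e]; exact hRV hJ
      · exact hVf e hRe hue v hv
      · exact hVf q hRq huq v hv
    have h2 := h.Fam_max hmax hRV h1 huV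
    exact hab ((hfa u h2).symm.trans hua)

theorem exists_u (h : AL0 G L J e) [Finite Q] {R : Subgroup (Perm Q)}
    (hmax : ∀ R' a' b', h.Fam R' a' b' → Nat.card R' ≤ Nat.card R) {b : Q}
    (hR : h.Fam R e b) : ∃ u ∈ G, u e = b ∧ u b = e ∧ (∃ k : ℕ, u ^ (2 ^ k) = 1) ∧
      (∀ r ∈ R, u * r * u⁻¹ ∈ R) ∧ (∀ r ∈ R, u⁻¹ * r * u ∈ R) := by
  have hfe : ∀ r ∈ R, r e = e := fun r hr => (hR.2.2.2.2 r hr).1
  have hfb : ∀ r ∈ R, r b = b := fun r hr => (hR.2.2.2.2 r hr).2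
  have hJ : J ∈ R := by
    have := hR.2.2.2.1
    rwa [h.D_e] at this
  have hJb := hfb J hJ
  have hDb : D L J b ∈ R := h.Fam_D hmax hR hR.2.2.1 hfb
  have hT : Tx L J b ∈ R := by
    rw [h.Tx_DJ hJb]; exact R.mul_mem hDb hJ
  have hbb : L b b = e := by
    have := h.LJ b
    rwa [hJb] at this
  obtain ⟨k, m, hm, hkm⟩ := Nat.exists_eq_two_pow_mul_odd (orderOf_pos (L b)).ne'
  obtain ⟨j, hj⟩ := hm
  have hsq : ∀ i : ℕ, ((L b) ^ 2) ^ i * 1 ∈ MulAction.stabilizer (Perm Q) e ⊓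
      MulAction.stabilizer (Perm Q) b := by
    intro i
    rw [mul_one]
    apply Subgroup.pow_mem
    constructor
    · change ((L b) ^ 2) e = e
      rw [pow_two, Perm.mul_apply, h.Le, hbb]
    · change ((L b) ^ 2) b = b
      rw [pow_two, Perm.mul_apply, hbb, h.Le]
  have hu : (L b) ^ m = ((L b) ^ 2) ^ j * L b := by
    rw [hj, pow_succ, pow_mul]
  have hsj := hsq j
  rw [mul_one] at hsj
  have hse : (((L b) ^ 2) ^ j) e = e := hsj.1
  have hsb : (((L b) ^ 2) ^ j) b = b := hsj.2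
  have hcomG : ∀ r ∈ R, r ∈ G → Commute r ((L b) ^ m) := by
    intro r hr hrG
    exact (show Commute r (L b) from h.comL hrG (hfe r hr) (hfb r hr)).pow_right m
  have hTL : Commute ((Tx L J b)⁻¹) (L b) := (show Commute (Tx L J b) (L b) from h.Tx_L b).inv_left
  have hJuJ : J * (L b) ^ m * J = ((Tx L J b)⁻¹) ^ m * (L b) ^ m := by
    have h1 : J * L b * J = (Tx L J b)⁻¹ * L b := by
      rw [h.JLJ, hJb]
      unfold Tx
      group
    have h2 : J * (L b) ^ m * J = (J * L b * J) ^ m := by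
      have h3 := conj_pow (i := m) (a := J) (b := L b)
      rw [h.Jinv] at h3
      exact h3.symm
    rw [h2, h1, hTL.mul_pow]
  have hJJ := h.JJ1
  have hTm : ((Tx L J b)⁻¹) ^ m ∈ R := R.pow_mem (R.inv_mem hT) m
  have hTmc : Commute (((Tx L J b)⁻¹) ^ m) ((L b) ^ m) := (hTL.pow_left m).pow_right m
  have h1J : (L b) ^ m * J * ((L b) ^ m)⁻¹ ∈ R := by
    have h1 : (L b) ^ m * J * ((L b) ^ m)⁻¹ = J * ((Tx L J b)⁻¹) ^ m := by
      calc (L b) ^ m * J * ((L b) ^ m)⁻¹ = (J * J) * (L b) ^ m * J * ((L b) ^ m)⁻¹ := by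
            rw [hJJ]; group
        _ = J * (J * (L b) ^ m * J) * ((L b) ^ m)⁻¹ := by group
        _ = _ := by rw [hJuJ]; group
    rw [h1]; exact R.mul_mem hJ hTm
  have h2J : ((L b) ^ m)⁻¹ * J * (L b) ^ m ∈ R := by
    have h1 : ((L b) ^ m)⁻¹ * J * (L b) ^ m = (((Tx L J b)⁻¹) ^ m) * J := by
      calc ((L b) ^ m)⁻¹ * J * (L b) ^ m = ((L b) ^ m)⁻¹ * (J * (L b) ^ m * J) * J⁻¹ := by group
        _ = ((L b) ^ m)⁻¹ * (((Tx L J b)⁻¹) ^ m * (L b) ^ m) * J⁻¹ := by rw [hJuJ]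
        _ = ((L b) ^ m)⁻¹ * ((L b) ^ m * ((Tx L J b)⁻¹) ^ m) * J⁻¹ := by rw [hTmc.eq]
        _ = _ := by rw [h.Jinv]; group
    rw [h1]; exact R.mul_mem hTm hJ
  refine ⟨(L b) ^ m, G.pow_mem (h.memL b) m, ?_, ?_, ⟨k, ?_⟩, ?_, ?_⟩
  · rw [hu, Perm.mul_apply, h.Le, hsb]
  · rw [hu, Perm.mul_apply, hbb, hse]
  · rw [← pow_mul, mul_comm, ← hkm, pow_orderOf_eq_one]
  · intro r hr
    rcases hR.1 hr with h1 | h1
    · have h2 := hcomG r hr h1
      have h3 : (L b) ^ m * r * ((L b) ^ m)⁻¹ = r := by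
        rw [← h2.eq]; group
      rw [h3]; exact hr
    · have hrJ := R.mul_mem hr hJ
      have h2 := hcomG (r * J) hrJ h1
      have h3 : (L b) ^ m * r * ((L b) ^ m)⁻¹ =
          (r * J) * ((L b) ^ m * J * ((L b) ^ m)⁻¹) := by
        calc (L b) ^ m * r * ((L b) ^ m)⁻¹ = (L b) ^ m * r * (J * J) * ((L b) ^ m)⁻¹ := by
              rw [hJJ]; group
          _ = ((L b) ^ m * (r * J)) * J * ((L b) ^ m)⁻¹ := by group
          _ = ((r * J) * (L b) ^ m) * J * ((L b) ^ m)⁻¹ := by rw [← h2.eq]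
          _ = _ := by group
      rw [h3]; exact R.mul_mem hrJ h1J
  · intro r hr
    rcases hR.1 hr with h1 | h1
    · have h2 := hcomG r hr h1
      have h3 : ((L b) ^ m)⁻¹ * r * (L b) ^ m = r := by
        rw [mul_assoc, h2.eq]; group
      rw [h3]; exact hr
    · have hrJ := R.mul_mem hr hJ
      have h2 := hcomG (r * J) hrJ h1
      have h3 : ((L b) ^ m)⁻¹ * r * (L b) ^ m =
          (r * J) * (((L b) ^ m)⁻¹ * J * (L b) ^ m) := by
        have h4 : ((L b) ^ m)⁻¹ * (r * J) = (r * J) * ((L b) ^ m)⁻¹ := by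
          calc ((L b) ^ m)⁻¹ * (r * J) = ((L b) ^ m)⁻¹ * ((r * J) * (L b) ^ m) * ((L b) ^ m)⁻¹ := by
                group
            _ = ((L b) ^ m)⁻¹ * ((L b) ^ m * (r * J)) * ((L b) ^ m)⁻¹ := by rw [h2.eq]
            _ = _ := by group
        calc ((L b) ^ m)⁻¹ * r * (L b) ^ m = ((L b) ^ m)⁻¹ * r * (J * J) * (L b) ^ m := by
              rw [hJJ]; group
          _ = (((L b) ^ m)⁻¹ * (r * J)) * J * (L b) ^ m := by group
          _ = ((r * J) * ((L b) ^ m)⁻¹) * J * (L b) ^ m := by rw [h4]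
          _ = _ := by group
      rw [h3]; exact R.mul_mem hrJ h2J

theorem Fam_conj (h : AL0 G L J e) {R : Subgroup (Perm Q)} {a b : Q} (hR : h.Fam R a b)
    {g : Perm Q} (hg : g ∈ G) :
    h.Fam (R.map (MulAut.conj g).toMonoidHom) (g a) (g b) := by
  obtain ⟨h1, h2, h3, h4, h5⟩ := hR
  have hgH := h.le_H hg
  refine ⟨?_, h2.map _, fun hh => h3 (g.injective hh), ⟨_, h4, ?_⟩, ?_⟩
  · rintro _ ⟨r, hr, rfl⟩
    exact h.H.mul_mem (h.H.mul_mem hgH (h1 hr)) (h.H.inv_mem hgH)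
  · exact h.D_conj hgH a
  · rintro _ ⟨r, hr, rfl⟩
    have h6 : ∀ x, ((MulAut.conj g).toMonoidHom r) (g x) = g (r x) := by
      intro x
      change (g * r * g⁻¹) (g x) = _
      rw [Perm.mul_apply, Perm.mul_apply, inv_apply']
    rw [h6, h6, (h5 r hr).1, (h5 r hr).2]
    exact ⟨rfl, rfl⟩

theorem card_conj (R : Subgroup (Perm Q)) (g : Perm Q) :
    Nat.card (R.map (MulAut.conj g).toMonoidHom) = Nat.card R :=
  (Nat.card_congr (R.equivMapOfInjective _ (MulAut.conj g).injective).toEquiv).symm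

/-- in an automorphic loop of odd order only `e` is equal to its inverse -/
theorem hfix_of_odd (h : AL0 G L J e) [Finite Q] (hodd : Odd (Nat.card Q)) :
    ∀ x, J x = x → x = e := by
  intro x hx
  by_contra hxe
  have : Fact (Nat.Prime 2) := ⟨Nat.prime_two⟩
  have hJ2 := h.JJ1
  have h0 : h.Fam (Subgroup.zpowers J) e x := by
    refine ⟨?_, ?_, fun hh => hxe hh.symm, ?_, ?_⟩
    · rw [Subgroup.zpowers_le]; exact h.J_mem
    · rintro ⟨y, n, rfl⟩
      refine ⟨1, ?_⟩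
      apply Subtype.ext
      change (J ^ n) ^ (2 ^ 1) = 1
      rw [pow_one, ← zpow_natCast, ← zpow_mul, mul_comm, zpow_mul, zpow_natCast, pow_two, hJ2,
        one_zpow]
    · rw [h.D_e]; exact Subgroup.mem_zpowers J
    · have h1 : Subgroup.zpowers J ≤ MulAction.stabilizer (Perm Q) e ⊓
          MulAction.stabilizer (Perm Q) x := by
        rw [Subgroup.zpowers_le]
        exact ⟨h.Je, hx⟩
      intro r hr
      exact ⟨(h1 hr).1, (h1 hr).2⟩
  obtain ⟨R, ⟨a, b, hR⟩, hmax⟩ := Set.exists_max_image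
    {R : Subgroup (Perm Q) | ∃ a b, h.Fam R a b} (fun R => Nat.card R) (Set.toFinite _)
    ⟨_, e, x, h0⟩
  have hmax' : ∀ (R' : Subgroup (Perm Q)) (a' b' : Q), h.Fam R' a' b' →
      Nat.card R' ≤ Nat.card R := fun R' a' b' hh => hmax R' ⟨a', b', hh⟩
  -- base change to `a = e`
  obtain ⟨R1, b1, hR1, hc1⟩ : ∃ (R1 : Subgroup (Perm Q)) (b1 : Q), h.Fam R1 e b1 ∧
      Nat.card R1 = Nat.card R := by
    have h1 := h.Fam_conj hR (G.inv_mem (h.memL a))
    have h2 : (L a)⁻¹ a = e := by rw [Perm.inv_eq_iff_eq, h.Le]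
    rw [h2] at h1
    exact ⟨_, _, h1, card_conj _ _⟩
  have hmax1 : ∀ (R' : Subgroup (Perm Q)) (a' b' : Q), h.Fam R' a' b' →
      Nat.card R' ≤ Nat.card R1 := by rw [hc1]; exact hmax'
  obtain ⟨u, hu, hue, hub, ⟨k, huk⟩, hn1, hn2⟩ := h.exists_u hmax1 hR1
  have hV2 := sup_two hR1.2.1 huk hn1 hn2
  obtain ⟨V, hV⟩ : ∃ V : Subgroup (Perm Q), V = R1 ⊔ Subgroup.zpowers u := ⟨_, rfl⟩
  rw [← hV] at hV2
  have h2Q : ¬ 2 ∣ Nat.card Q := fun hd => (Nat.not_even_iff_odd.2 hodd) (even_iff_two_dvd.2 hd)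
  obtain ⟨p, hp⟩ := hV2.nonempty_fixed_point_of_prime_not_dvd_card Q h2Q
  have hRV : R1 ≤ V := by rw [hV]; exact le_sup_left
  have huV : u ∈ V := by
    rw [hV]; exact (le_sup_right : Subgroup.zpowers u ≤ _) (Subgroup.mem_zpowers u)
  have hVp : ∀ v ∈ V, v p = p := fun v hv => hp ⟨v, hv⟩
  have hVH : V ≤ h.H := by
    rw [hV]
    apply sup_le hR1.1
    rw [Subgroup.zpowers_le]; exact h.le_H hu
  have hVf : ∀ q, (∀ r ∈ R1, r q = q) → u q = q → ∀ v ∈ V, v q = q := by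
    intro q h1 h2
    rw [hV]; exact sup_fix h1 h2
  -- base change to `p = e`
  obtain ⟨g, hg⟩ : ∃ g, g = (L p)⁻¹ := ⟨_, rfl⟩
  have hgG : g ∈ G := hg ▸ G.inv_mem (h.memL p)
  have hgp : g p = e := by rw [hg, Perm.inv_eq_iff_eq, h.Le]
  have hge : g⁻¹ e = p := by rw [← hgp, inv_apply']
  have hR2 := h.Fam_conj hR1 hgG
  have hgH := h.le_H hgG
  refine h.fin_odd (R := R1.map (MulAut.conj g).toMonoidHom)
    (V := V.map (MulAut.conj g).toMonoidHom) ?_ hR2 ?_ (u := g * u * g⁻¹)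
    (G.mul_mem (G.mul_mem hgG hu) (G.inv_mem hgG)) ?_ ?_ ?_ (Subgroup.map_mono hRV)
    ⟨u, huV, rfl⟩ (hV2.map _) ?_ ?_
  · rw [card_conj]; exact hmax1
  · rintro _ ⟨r, hr, rfl⟩
    change (g * r * g⁻¹) e = e
    rw [Perm.mul_apply, Perm.mul_apply, hge, hVp r (hRV hr), hgp]
  · rw [Perm.mul_apply, Perm.mul_apply, hge, hVp u huV, hgp]
  · rw [Perm.mul_apply, Perm.mul_apply, inv_apply', hue]
  · rw [Perm.mul_apply, Perm.mul_apply, inv_apply', hub]
  · rintro _ ⟨v, hv, rfl⟩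
    exact h.H.mul_mem (h.H.mul_mem hgH (hVH hv)) (h.H.inv_mem hgH)
  · rintro q h1 h2 _ ⟨v, hv, rfl⟩
    change (g * v * g⁻¹) q = q
    rw [Perm.mul_apply, Perm.mul_apply, hVf (g⁻¹ q) ?_ ?_ v hv, apply_inv']
    · intro r hr
      have h3 := h1 _ ⟨r, hr, rfl⟩
      change (g * r * g⁻¹) q = q at h3
      rw [Perm.mul_apply, Perm.mul_apply] at h3
      rw [Perm.eq_inv_iff_eq]; exact h3
    · rw [Perm.mul_apply, Perm.mul_apply] at h2
      rw [Perm.eq_inv_iff_eq]; exact h2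

end AL0

end ALoop
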